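import Pool.Agent.CTL45.BetweenAdm
import Pool.Agent.CTL45.Prefix

set_option autoImplicit false

namespace Pool.Agent.Results.MP_27a5c7_al.Catalyst

open Pool.Agent.Helper60.Hit Pool.Agent.CTL45

/-- For every `n ≥ 1`, weight vector `ω` and admissible `t` in `B_n(ω)` (with `e0` its image under
`ρ`, inserting exponent `0` at position `p`) and every position `q > p` whose exponent has the
binary digits `0` and `1`: the exponent vector `e` with `e p = 3`, `e q = e0 q - 3` and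
`e = e0` elsewhere (this is the value of `φ_(p;(k₁,q))` for `r = u = 2`) is again in
`B_(n+1)(ω)`, provided that some variable strictly between `x_p` and `x_q` has an exponent
congruent to `1` or `2` modulo `4`, or the variable directly in front of `x_p` has exponent
`1`. -/
theorem result :
  ∀ (W : (d : ℕ) → (Fin d → ℕ) → ℕ → ℕ),
    (∀ (d : ℕ) (e : Fin d → ℕ) (i : ℕ), W d e i = ∑ j, e j / 2 ^ i % 2) →
  ∀ (L : (ℕ → ℕ) → (ℕ → ℕ) → Prop),
    (∀ a b : ℕ → ℕ, L a b ↔ ∃ i : ℕ, (∀ l < i, a l = b l) ∧ a i < b i) →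
  ∀ (Adm : (d : ℕ) → (Fin d → ℕ) → Prop),
    (∀ (d : ℕ) (u : Fin d → ℕ), Adm d u ↔
      MvPolynomial.monomial (Finsupp.equivFunOnFinite.symm u) (1 : ZMod 2) ∉
        (Submodule.span (ZMod 2)
          {g : MvPolynomial (Fin d) (ZMod 2) | ∃ (e : Fin d → ℕ) (i : ℕ), 0 < i ∧
            g = MvPolynomial.homogeneousComponent ((∑ j, e j) + i)
              (MvPolynomial.aeval
                (fun j : Fin d => (MvPolynomial.X j + MvPolynomial.X j ^ 2 : MvPolynomial (Fin d) (ZMod 2)))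
                (MvPolynomial.monomial (Finsupp.equivFunOnFinite.symm e) (1 : ZMod 2)))}
        ⊔ Submodule.span (ZMod 2)
          {g : MvPolynomial (Fin d) (ZMod 2) | ∃ y : Fin d → ℕ,
            g = MvPolynomial.monomial (Finsupp.equivFunOnFinite.symm y) (1 : ZMod 2) ∧
            ∑ j, y j = ∑ j, u j ∧
            (L (W d y) (W d u) ∨
              (W d y = W d u ∧ ∃ i : Fin d, (∀ j, j < i → y j = u j) ∧ y i < u i))})) →
  ∀ (B : (d : ℕ) → (ℕ →₀ ℕ) → (Fin d → ℕ) → Prop),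
    (∀ (d : ℕ) (ω : ℕ →₀ ℕ) (e : Fin d → ℕ), B d ω e ↔
      (Adm d e ∧ ∑ j, e j = ω.sum (fun i a => 2 ^ i * a) ∧
        (W d e = ⇑ω ∨ L (W d e) ⇑ω))) →
  ∀ (n : ℕ), 1 ≤ n → ∀ (ω : ℕ →₀ ℕ) (t : Fin n → ℕ), B n ω t →
  ∀ (p : Fin (n + 1)) (e0 : Fin (n + 1) → ℕ), e0 p = 0 → (∀ j, e0 (p.succAbove j) = t j) →
     ∀ (q : Fin (n + 1)) (e : Fin (n + 1) → ℕ),
       p < q → e0 q % 4 = 3 →
       ((∃ c, p < c ∧ c < q ∧ (e0 c % 4 = 1 ∨ e0 c % 4 = 2)) ∨
         (∃ c : Fin (n + 1), (c : ℕ) + 1 = p ∧ e0 c = 1)) →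
       e p = 3 →
       e q + 3 = e0 q →
       (∀ i, i ≠ p → i ≠ q → e i = e0 i) →
       B (n + 1) ω e := by
  intro W hW L hL Adm hAdm B hB n _ ω t ht p e0 h0 h1 q e hpq hq4 hcat hep heq heo
  have hWw : ∀ (d : ℕ) (e : Fin d → ℕ), W d e = wt e := fun d e => funext fun i => hW d e i
  have hLL : ∀ a b, L a b ↔ LexLT a b := fun a b => hL a b
  have hA : ∀ (d : ℕ) (u : Fin d → ℕ), Adm d u ↔ Pool.Agent.Helper60.Hit.Adm u := by
    intro d u
    rw [hAdm]
    unfold Pool.Agent.Helper60.Hit.Adm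
    have hset : {g : MvPolynomial (Fin d) (ZMod 2) | ∃ y : Fin d → ℕ,
            g = MvPolynomial.monomial (Finsupp.equivFunOnFinite.symm y) (1 : ZMod 2) ∧
            ∑ j, y j = ∑ j, u j ∧
            (L (W d y) (W d u) ∨
              (W d y = W d u ∧ ∃ i : Fin d, (∀ j, j < i → y j = u j) ∧ y i < u i))} =
        {g | ∃ y : Fin d → ℕ, g = mono y ∧ MonLT y u} := by
      ext g
      simp only [hWw, hLL]
      rfl
    rw [hset]
    rfl
  have hwt0 : wt t = wt e0 := by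
    funext k
    unfold wt
    rw [Fin.sum_univ_succAbove (fun j => e0 j / 2 ^ k % 2) p, h0]
    simp [h1]
  have hsum0 : ∑ j, t j = ∑ j, e0 j := by
    rw [Fin.sum_univ_succAbove (fun j => e0 j) p, h0]
    simp [h1]
  have heq' : e0 q = e q + 3 := by omega
  have he4 : e q % 4 = 0 := by omega
  have hother : ∀ l, l ≠ p → l ≠ q → e0 l = e l := fun l h2 h3 => (heo l h2 h3).symm
  obtain ⟨g2, g3⟩ := sum_wt_transfer (ne_of_lt hpq) hep h0 heq' he4 hother
  have g1 : Pool.Agent.Helper60.Hit.Adm e0 → Pool.Agent.Helper60.Hit.Adm e := by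
    rcases hcat with ⟨c, hpc, hcq, hc⟩ | ⟨c, hcp, hc⟩
    · have S : Sit p c q e e0 := ⟨hpc, hcq, hep, h0, heq', he4, hother⟩
      refine S.adm ?_
      rw [heo c (ne_of_gt hpc) (ne_of_lt hcq)]
      exact hc
    · have hcp' : c < p := by rw [Fin.lt_def]; omega
      have S : SitP p c q e e0 := ⟨hcp, hpq,
        by rw [heo c (ne_of_lt hcp') (ne_of_lt (hcp'.trans hpq))]; exact hc,
        hep, h0, heq', he4, hother⟩
      exact S.adm
  rw [hB] at ht ⊢
  obtain ⟨ht1, ht2, ht3⟩ := ht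
  refine ⟨?_, ?_, ?_⟩
  · rw [hA] at ht1 ⊢
    exact g1 (adm_insert p h0 h1 ht1)
  · rw [← g3, ← hsum0]; exact ht2
  · rw [hWw] at ht3 ⊢
    rw [← g2, ← hwt0]; exact ht3

end Pool.Agent.Results.MP_27a5c7_al.Catalyst
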