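import Pool.Agent.HitD5.Final

set_option autoImplicit false

namespace Pool.Agent.Results.MP_27a5c7_al.DimensionFive

open Pool.Agent.Helper60.Hit Pool.Agent.CTL45 Pool.Agent.HitD5

/-- For `d = 5`, every weight vector `ω` and every admissible `t` in `B_4(ω)`: each `ρ_(k,5)` of it is in
`B_5(ω)`, and each nonzero `φ_(k;K)` of it (`r > 0`) with all exponents positive is in `B_5(ω)`. -/
theorem result :
  ∀ (W : (d : ℕ) → (Fin d → ℕ) → ℕ → ℕ),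
    (∀ (d : ℕ) (e : Fin d → ℕ) (i : ℕ), W d e i = ∑ j, e j / 2 ^ i % 2) →
  ∀ (L : (ℕ → ℕ) → (ℕ → ℕ) → Prop),
    (∀ a b : ℕ → ℕ, L a b ↔ ∃ i : ℕ, (∀ l < i, a l = b l) ∧ a i < b i) →
  ∀ (Adm : (d : ℕ) → (Fin d → ℕ) → Prop),
    (∀ (d : ℕ) (u : Fin d → ℕ), Adm d u ↔
      MvPolynomial.monomial (Finsupp.equivFunOnFinite.symm u) (1 : ZMod 2) ∉
        (Submodule.span (ZMod 2)
          {g : MvPolynomial (Fin d) (ZMod 2) | ∃ (e : Fin d → ℕ) (i : ℕ), 0 < i ∧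
            g = MvPolynomial.homogeneousComponent ((∑ j, e j) + i)
              (MvPolynomial.aeval
                (fun j : Fin d => (MvPolynomial.X j + MvPolynomial.X j ^ 2 : MvPolynomial (Fin d) (ZMod 2)))
                (MvPolynomial.monomial (Finsupp.equivFunOnFinite.symm e) (1 : ZMod 2)))}
        ⊔ Submodule.span (ZMod 2)
          {g : MvPolynomial (Fin d) (ZMod 2) | ∃ y : Fin d → ℕ,
            g = MvPolynomial.monomial (Finsupp.equivFunOnFinite.symm y) (1 : ZMod 2) ∧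
            ∑ j, y j = ∑ j, u j ∧
            (L (W d y) (W d u) ∨
              (W d y = W d u ∧ ∃ i : Fin d, (∀ j, j < i → y j = u j) ∧ y i < u i))})) →
  ∀ (B : (d : ℕ) → (ℕ →₀ ℕ) → (Fin d → ℕ) → Prop),
    (∀ (d : ℕ) (ω : ℕ →₀ ℕ) (e : Fin d → ℕ), B d ω e ↔
      (Adm d e ∧ ∑ j, e j = ω.sum (fun i a => 2 ^ i * a) ∧
        (W d e = ⇑ω ∨ L (W d e) ⇑ω))) →
  ∀ (ω : ℕ →₀ ℕ) (t : Fin 4 → ℕ), B 4 ω t →
  ∀ (p : Fin 5) (e0 : Fin 5 → ℕ), e0 p = 0 → (∀ j, e0 (p.succAbove j) = t j) →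
    (B 5 ω e0 ∧
     ∀ (r : ℕ) (κ : Fin r → Fin 5) (u : Fin r) (e : Fin 5 → ℕ),
       0 < r → StrictMono κ → (∀ m, p < κ m) →
       (∀ m, m < u → e0 (κ m) = 2 ^ r - 1) →
       2 ^ r - 1 < e0 (κ u) →
       (∀ m, m ≤ u → e0 (κ u) / 2 ^ (r - 1 - (m : ℕ)) % 2 = 1) →
       (∀ m, u < m → e0 (κ m) / 2 ^ (r - 1 - (m : ℕ)) % 2 = 1) →
       e p = 2 ^ r - 1 →
       e (κ u) + ∑ m ∈ Finset.range ((u : ℕ) + 1), 2 ^ (r - 1 - m) = e0 (κ u) →
       (∀ m, u < m → e (κ m) + 2 ^ (r - 1 - (m : ℕ)) = e0 (κ m)) →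
       (∀ i, i ≠ p → (∀ m, u ≤ m → i ≠ κ m) → e i = e0 i) →
       (∀ i, 0 < e i) →
       B 5 ω e) := by
  intro W hW L hL Adm hAdm B hB ω t ht p e0 h0 h1
  have hWw : ∀ (d : ℕ) (e : Fin d → ℕ), W d e = wt e := fun d e => funext fun i => hW d e i
  have hLL : ∀ a b, L a b ↔ LexLT a b := fun a b => hL a b
  have hA : ∀ (d : ℕ) (u : Fin d → ℕ), Adm d u ↔ Pool.Agent.Helper60.Hit.Adm u := by
    intro d u
    rw [hAdm]
    unfold Pool.Agent.Helper60.Hit.Adm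
    have hset : {g : MvPolynomial (Fin d) (ZMod 2) | ∃ y : Fin d → ℕ,
            g = MvPolynomial.monomial (Finsupp.equivFunOnFinite.symm y) (1 : ZMod 2) ∧
            ∑ j, y j = ∑ j, u j ∧
            (L (W d y) (W d u) ∨
              (W d y = W d u ∧ ∃ i : Fin d, (∀ j, j < i → y j = u j) ∧ y i < u i))} =
        {g | ∃ y : Fin d → ℕ, g = mono y ∧ MonLT y u} := by
      ext g
      simp only [hWw, hLL]
      rfl
    rw [hset]
    rfl
  have hwt0 : wt t = wt e0 := by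
    funext k
    unfold wt
    rw [Fin.sum_univ_succAbove (fun j => e0 j / 2 ^ k % 2) p, h0]
    simp [h1]
  have hsum0 : ∑ j, t j = ∑ j, e0 j := by
    rw [Fin.sum_univ_succAbove (fun j => e0 j) p, h0]
    simp [h1]
  rw [hB] at ht
  obtain ⟨ht1, ht2, ht3⟩ := ht
  rw [hA] at ht1
  rw [hWw] at ht3
  refine ⟨?_, ?_⟩
  · rw [hB]
    refine ⟨?_, ?_, ?_⟩
    · rw [hA]
      exact adm_insert p h0 h1 ht1
    · rw [← hsum0]; exact ht2
    · rw [hWw, ← hwt0]; exact ht3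
  · intro r κ u e _ hκ hpκ hlow hbig hbu hbm hep heu hem heq hpos
    have S := wk_main p e0 h0 r κ u e hκ hpκ hlow hbu hbm hep heu hem heq
    rw [hB]
    refine ⟨?_, ?_, ?_⟩
    · rw [hA]
      exact phi_adm ht1 p e0 h0 h1 r κ u e hκ hpκ hlow hbig hbu hbm hep heu hem heq hpos
    · rw [← S.sum_eq, ← hsum0]; exact ht2
    · rw [hWw, ← S.hwt, ← hwt0]; exact ht3

end Pool.Agent.Results.MP_27a5c7_al.DimensionFive
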