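import Pool.Agent.HitAB.Shift
import Pool.Agent.SUC.CatMain

set_option autoImplicit false

namespace Pool.Agent.Results.MP_27a5c7_al.GapCriterion

open Pool.Agent.Helper60.Hit Pool.Agent.CTL45 Pool.Agent.HitAB Pool.Agent.SUC

/-- For every `n ≥ 1`, weight vector `ω` and admissible `t` in `B_n(ω)` (with `e0` its image under
`ρ`, inserting exponent `0` at position `p`), the exponent vector `e` of the image under
`φ_(p;κ)` is again in `B_(n+1)(ω)`, provided that the following holds, with `r` the length of `κ`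
and `s` such that the `s` variables directly before `x_p` have exponent `2 ^ r - 1` (`s = 0` is
allowed). There is a `c` such that every exponent of `t` is congruent to `-1` modulo `2 ^ c` or
small, that is, of the form `2 ^ a - 1` with `a ≤ c` (`c = 0` is allowed and no condition;
`e0 l < 2 ^ c` says that `e0 l` is small). Every variable `x_i` strictly between `x_p` and the last
of the `κ m` with `m + s < u` satisfies one of the following: its exponent is `2 ^ r - 1`; its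
exponent and all later ones that are not small are congruent to `-1` modulo `2 ^ r`; its exponent
has a binary digit `1` wherever a later exponent that is not small has one; its exponent is small;
`r ≤ c + 1`; or `r = c + 2` and `x_i` has a catalyst `x_l`: no exponent strictly between `x_i` and
`x_l` (in either order) is `2 ^ r - 1`, and either `x_l` is behind `x_p` and its exponent divided by
`2 ^ c` (rounded down) is `1` or `2` modulo `4`, or `x_l` is before `x_p`, has exponent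
`2 ^ (c + 1) - 1`, and all variables strictly between `x_l` and `x_p` are small. -/
theorem result :
  ∀ (W : (d : ℕ) → (Fin d → ℕ) → ℕ → ℕ),
    (∀ (d : ℕ) (e : Fin d → ℕ) (i : ℕ), W d e i = ∑ j, e j / 2 ^ i % 2) →
  ∀ (L : (ℕ → ℕ) → (ℕ → ℕ) → Prop),
    (∀ a b : ℕ → ℕ, L a b ↔ ∃ i : ℕ, (∀ l < i, a l = b l) ∧ a i < b i) →
  ∀ (Adm : (d : ℕ) → (Fin d → ℕ) → Prop),
    (∀ (d : ℕ) (u : Fin d → ℕ), Adm d u ↔
      MvPolynomial.monomial (Finsupp.equivFunOnFinite.symm u) (1 : ZMod 2) ∉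
        (Submodule.span (ZMod 2)
          {g : MvPolynomial (Fin d) (ZMod 2) | ∃ (e : Fin d → ℕ) (i : ℕ), 0 < i ∧
            g = MvPolynomial.homogeneousComponent ((∑ j, e j) + i)
              (MvPolynomial.aeval
                (fun j : Fin d => (MvPolynomial.X j + MvPolynomial.X j ^ 2 : MvPolynomial (Fin d) (ZMod 2)))
                (MvPolynomial.monomial (Finsupp.equivFunOnFinite.symm e) (1 : ZMod 2)))}
        ⊔ Submodule.span (ZMod 2)
          {g : MvPolynomial (Fin d) (ZMod 2) | ∃ y : Fin d → ℕ,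
            g = MvPolynomial.monomial (Finsupp.equivFunOnFinite.symm y) (1 : ZMod 2) ∧
            ∑ j, y j = ∑ j, u j ∧
            (L (W d y) (W d u) ∨
              (W d y = W d u ∧ ∃ i : Fin d, (∀ j, j < i → y j = u j) ∧ y i < u i))})) →
  ∀ (B : (d : ℕ) → (ℕ →₀ ℕ) → (Fin d → ℕ) → Prop),
    (∀ (d : ℕ) (ω : ℕ →₀ ℕ) (e : Fin d → ℕ), B d ω e ↔
      (Adm d e ∧ ∑ j, e j = ω.sum (fun i a => 2 ^ i * a) ∧
        (W d e = ⇑ω ∨ L (W d e) ⇑ω))) →
  ∀ (n : ℕ), 1 ≤ n → ∀ (ω : ℕ →₀ ℕ) (t : Fin n → ℕ), B n ω t →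
  ∀ (p : Fin (n + 1)) (e0 : Fin (n + 1) → ℕ), e0 p = 0 → (∀ j, e0 (p.succAbove j) = t j) →
     ∀ (r : ℕ) (κ : Fin r → Fin (n + 1)) (u : Fin r) (e : Fin (n + 1) → ℕ),
       StrictMono κ → (∀ m, p < κ m) →
       ∀ c : ℕ, (∀ j, t j % 2 ^ c = 2 ^ c - 1 ∨ ∃ a : ℕ, a ≤ c ∧ t j = 2 ^ a - 1) →
       ∀ s : ℕ, s ≤ (p : ℕ) →
       (∀ i : Fin (n + 1), i < p → (p : ℕ) ≤ (i : ℕ) + s → e0 i = 2 ^ r - 1) →
       (∀ (i : Fin (n + 1)) (m : Fin r), p < i → (m : ℕ) + s < (u : ℕ) → i < κ m →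
         (e0 i = 2 ^ r - 1 ∨
           (∀ l, i ≤ l → (e0 l % 2 ^ r = 2 ^ r - 1 ∨ e0 l < 2 ^ c)) ∨
           (∀ l s, i < l → e0 l / 2 ^ s % 2 = 1 → (e0 i / 2 ^ s % 2 = 1 ∨ e0 l < 2 ^ c)) ∨
           e0 i < 2 ^ c ∨ r ≤ c + 1 ∨
           (r = c + 2 ∧ ∃ l : Fin (n + 1),
             (∀ j, ((i < j ∧ j < l) ∨ (l < j ∧ j < i)) → e0 j ≠ 2 ^ r - 1) ∧
             ((p < l ∧ (e0 l / 2 ^ c % 4 = 1 ∨ e0 l / 2 ^ c % 4 = 2)) ∨
               (l < p ∧ e0 l = 2 ^ (c + 1) - 1 ∧ ∀ j, l < j → j < p → e0 j < 2 ^ c))))) →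
       (∀ m, m < u → e0 (κ m) = 2 ^ r - 1) →
       (∀ m, m ≤ u → e0 (κ u) / 2 ^ (r - 1 - (m : ℕ)) % 2 = 1) →
       (∀ m, u < m → e0 (κ m) / 2 ^ (r - 1 - (m : ℕ)) % 2 = 1) →
       e p = 2 ^ r - 1 →
       e (κ u) + ∑ m ∈ Finset.range ((u : ℕ) + 1), 2 ^ (r - 1 - m) = e0 (κ u) →
       (∀ m, u < m → e (κ m) + 2 ^ (r - 1 - (m : ℕ)) = e0 (κ m)) →
       (∀ i, i ≠ p → (∀ m, u ≤ m → i ≠ κ m) → e i = e0 i) →
       B (n + 1) ω e := by
  intro W hW L hL Adm hAdm B hB n _ ω t ht p e0 h0 h1 r κ u e hκ hpκ c hct s hsp hs hgap hlow hbu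
    hbm hep heu hem heq
  have hWw : ∀ (d : ℕ) (e : Fin d → ℕ), W d e = wt e := fun d e => funext fun i => hW d e i
  have hLL : ∀ a b, L a b ↔ LexLT a b := fun a b => hL a b
  have hA : ∀ (d : ℕ) (u : Fin d → ℕ), Adm d u ↔ Pool.Agent.Helper60.Hit.Adm u := by
    intro d u
    rw [hAdm]
    unfold Pool.Agent.Helper60.Hit.Adm
    have hset : {g : MvPolynomial (Fin d) (ZMod 2) | ∃ y : Fin d → ℕ,
            g = MvPolynomial.monomial (Finsupp.equivFunOnFinite.symm y) (1 : ZMod 2) ∧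
            ∑ j, y j = ∑ j, u j ∧
            (L (W d y) (W d u) ∨
              (W d y = W d u ∧ ∃ i : Fin d, (∀ j, j < i → y j = u j) ∧ y i < u i))} =
        {g | ∃ y : Fin d → ℕ, g = mono y ∧ MonLT y u} := by
      ext g
      simp only [hWw, hLL]
      rfl
    rw [hset]
    rfl
  have fin : ∀ (p' : Fin (n + 1)) (e1 : Fin (n + 1) → ℕ), e1 p' = 0 →
      (∀ j, e1 (p'.succAbove j) = t j) →
      ((Pool.Agent.Helper60.Hit.Adm e1 → Pool.Agent.Helper60.Hit.Adm e) ∧ wt e = wt e1 ∧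
        ∑ i, e i = ∑ i, e1 i) → B (n + 1) ω e := by
    rintro p' e1 s2 s3 ⟨g1, g2, g3⟩
    have hwt0 : wt t = wt e1 := by
      funext k
      unfold wt
      rw [Fin.sum_univ_succAbove (fun j => e1 j / 2 ^ k % 2) p', s2]
      simp [s3]
    have hsum0 : ∑ j, t j = ∑ j, e1 j := by
      rw [Fin.sum_univ_succAbove (fun j => e1 j) p', s2]
      simp [s3]
    rw [hB] at ht ⊢
    obtain ⟨ht1, ht2, ht3⟩ := ht
    refine ⟨?_, ?_, ?_⟩
    · rw [hA] at ht1 ⊢
      exact g1 (adm_insert p' s2 s3 ht1)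
    · rw [g3, ← hsum0]; exact ht2
    · rw [hWw] at ht3 ⊢
      rw [g2, ← hwt0]; exact ht3
  rcases Nat.eq_zero_or_pos s with hs0 | hs0
  · -- no shift
    refine fin p e0 h0 h1 (cat_main p e0 h0 r κ u e hκ hpκ (c := c) ?_ ?_ hlow hbu hbm hep heu hem
      heq)
    · intro i hi
      obtain ⟨j, rfl⟩ := Fin.exists_succAbove_eq hi
      rw [h1]
      exact hct j
    · intro i m hi hm him
      rcases hgap i m hi (by rw [hs0]; exact hm) him with h2 | h2 | h2 | h2 | h2 | h2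
      · exact Or.inl h2
      · exact Or.inr (Or.inl (Or.inl h2))
      · exact Or.inr (Or.inl (Or.inr (Or.inl h2)))
      · exact Or.inr (Or.inl (Or.inr (Or.inr (Or.inl h2))))
      · exact Or.inr (Or.inl (Or.inr (Or.inr (Or.inr h2))))
      · exact Or.inr (Or.inr h2)
  obtain ⟨p', e1, κ', s1, s2, s3, s4, s5, s6, s7, s8, -, s10, s11, s12, s13⟩ :=
    shift_data t p e0 h1 r κ u e hκ hpκ hlow hep heq s hsp hs
  have hc : ∀ i, i ≠ p' → e1 i % 2 ^ c = 2 ^ c - 1 ∨ ∃ a ≤ c, e1 i = 2 ^ a - 1 := by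
    intro i hi
    obtain ⟨j, rfl⟩ := Fin.exists_succAbove_eq hi
    rw [s3]
    exact hct j
  have hgap' : ∀ i m, p' < i → m < u → i < κ' m →
      e1 i = 2 ^ r - 1 ∨ Alt c r e1 i ∨ (r = c + 2 ∧ ∃ l, Ctl c r p' e1 i l) := by
    intro i m hi hm him
    rcases le_or_gt i p with h | h
    · exact Or.inl (s10 i hi h)
    · obtain ⟨m', hm', him'⟩ := s11 i m h hm him
      have hl : ∀ l, i ≤ l → e1 l = e0 l := fun l hl => s8 l (lt_of_lt_of_le h hl)
      rw [hl i le_rfl]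
      rcases hgap i m' h hm' him' with h2 | h2 | h2 | h2 | h2 | h2
      · exact Or.inl h2
      · exact Or.inr (Or.inl (Or.inl fun l hil => by rw [hl l hil]; exact h2 l hil))
      · refine Or.inr (Or.inl (Or.inr (Or.inl fun l j hil hj => ?_)))
        rw [hl l (le_of_lt hil)] at hj ⊢
        rw [hl i le_rfl]
        exact h2 l j hil hj
      · exact Or.inr (Or.inl (Or.inr (Or.inr (Or.inl (by rw [hl i le_rfl]; exact h2)))))
      · exact Or.inr (Or.inl (Or.inr (Or.inr (Or.inr h2))))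
      · obtain ⟨hr, l, hbet, hcat⟩ := h2
        refine Or.inr (Or.inr ⟨hr, l, ?_⟩)
        rcases hcat with ⟨hpl, hcat⟩ | ⟨hlp, hel, hsm⟩
        · refine ⟨fun j hj => ?_, Or.inl ⟨lt_of_le_of_lt s1 hpl, ?_⟩⟩
          · have hj2 : p < j := by
              rcases hj with hj | hj
              · exact h.trans hj.1
              · exact hpl.trans hj.1
            rw [s8 j hj2]; exact hbet j hj
          · rw [s8 l hpl]; exact hcat
        · -- a catalyst before `x_p` and `s ≥ 1` exclude each other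
          exfalso
          have h5 := Nat.one_le_two_pow (n := c)
          have hpp := p.2
          have hp0 : 1 ≤ (p : ℕ) := le_trans hs0 hsp
          have h6 : e0 ⟨(p : ℕ) - 1, by omega⟩ = 2 ^ (c + 2) - 1 := by
            rw [← hr]
            exact hs _ (by rw [Fin.lt_def]; show (p : ℕ) - 1 < p; omega)
              (by show (p : ℕ) ≤ (p : ℕ) - 1 + s; omega)
          rw [pow_add] at h6
          rcases lt_or_eq_of_le (show l ≤ ⟨(p : ℕ) - 1, by omega⟩ by
            rw [Fin.lt_def] at hlp; rw [Fin.le_def]; show (l : ℕ) ≤ (p : ℕ) - 1; omega) with h7 | h7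
          · have h8 := hsm _ h7 (by rw [Fin.lt_def]; show (p : ℕ) - 1 < p; omega)
            omega
          · rw [h7, pow_succ] at hel
            omega
  have hu0 : e1 (κ' u) = e0 (κ u) := by rw [s7 u le_rfl]; exact s8 _ (hpκ u)
  have hm0 : ∀ m, u < m → e1 (κ' m) = e0 (κ m) := fun m hm => by
    rw [s7 m (le_of_lt hm)]; exact s8 _ (hpκ m)
  exact fin p' e1 s2 s3 (cat_main p' e1 s2 r κ' u e s4 s5 hc hgap' s6
    (fun m hm => by rw [hu0]; exact hbu m hm) (fun m hm => by rw [hm0 m hm]; exact hbm m hm) s12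
    (by rw [hu0, s7 u le_rfl]; exact heu)
    (fun m hm => by rw [hm0 m hm, s7 m (le_of_lt hm)]; exact hem m hm) s13)

end Pool.Agent.Results.MP_27a5c7_al.GapCriterion
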