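import Pool.Agent.SUC.OpC3
import Pool.Agent.HitD5.Data

set_option autoImplicit false

namespace Pool.Agent.Results.MP_27a5c7_al.NextLevel

open Pool.Agent.Helper60.Hit Pool.Agent.CTL45 Pool.Agent.HitD5 Pool.Agent.SUC

/-- the positions of the problem, `u = 1` (counted from `0`), `q` the exceptional place -/
theorem nl_main {n : ℕ} (p : Fin (n + 1)) (e0 : Fin (n + 1) → ℕ) (h0 : e0 p = 0)
    (r : ℕ) (κ : Fin r → Fin (n + 1)) (u : Fin r) (e : Fin (n + 1) → ℕ)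
    (hκ : StrictMono κ) (hpκ : ∀ m, p < κ m) (hu1 : (u : ℕ) = 1) (q : Fin (n + 1))
    (hpq : p < q) (hqne : ∀ m, m < u → q ≠ κ m) (hqk : e0 q % 2 ^ (r - 1) = 2 ^ (r - 2) - 1)
    (hqg : ∀ m, m < u → q < κ m → e0 q % 2 ^ r = 2 ^ (r - 2) - 1)
    (hfr : ∀ i, i < p → (e0 i % 2 ^ r = 2 ^ r - 1 ∨ ∃ a : ℕ, a ≤ r - 2 ∧ e0 i = 2 ^ a - 1))
    (hmd : ∀ i m, p < i → m < u → i < κ m → i < q →
      (e0 i % 2 ^ r = 2 ^ r - 1 ∨ ∃ a : ℕ, a ≤ r - 1 ∧ e0 i = 2 ^ a - 1))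
    (hbk : ∀ i m, p < i → m < u → (κ m < i ∨ q < i) → i ≠ q →
      (e0 i % 2 ^ (r - 1) = 2 ^ (r - 1) - 1 ∨ ∃ a : ℕ, a ≤ r - 2 ∧ e0 i = 2 ^ a - 1))
    (hlow : ∀ m : Fin r, m < u → e0 (κ m) = 2 ^ r - 1)
    (hbu : ∀ m : Fin r, m ≤ u → e0 (κ u) / 2 ^ (r - 1 - (m : ℕ)) % 2 = 1)
    (hbm : ∀ m : Fin r, u < m → e0 (κ m) / 2 ^ (r - 1 - (m : ℕ)) % 2 = 1)
    (hep : e p = 2 ^ r - 1)
    (heu : e (κ u) + ∑ m ∈ Finset.range ((u : ℕ) + 1), 2 ^ (r - 1 - m) = e0 (κ u))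
    (hem : ∀ m : Fin r, u < m → e (κ m) + 2 ^ (r - 1 - (m : ℕ)) = e0 (κ m))
    (heq : ∀ i, i ≠ p → (∀ m, u ≤ m → i ≠ κ m) → e i = e0 i) :
    (Adm e0 → Adm e) ∧ wt e = wt e0 ∧ ∑ i, e i = ∑ i, e0 i := by
  have S : Wk (seqOf p κ) r (u : ℕ) e e0 :=
    wk_main p e0 h0 r κ u e hκ hpκ hlow hbu hbm hep heu hem heq
  refine ⟨fun h => ?_, S.hwt.symm, S.sum_eq.symm⟩
  have hur := u.2
  obtain ⟨k, rfl⟩ : ∃ k, r = k + 2 := ⟨r - 2, by omega⟩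
  have hlt : (⟨0, by omega⟩ : Fin (k + 2)) < u := by
    rw [Fin.lt_def, hu1]; exact Nat.zero_lt_one
  have hw0 : seqOf p κ 0 = p := rfl
  have hw1 : seqOf p κ 1 = κ ⟨0, by omega⟩ := seqOf_succ p κ ⟨0, by omega⟩
  rw [hu1] at S
  refine Wk.C4 S q ?_ ?_ hqk ?_ ?_ ?_ ?_ h
  · rw [hw0]; exact hpq
  · rw [hw1]; exact hqne _ hlt
  · rw [hw1]; exact hqg _ hlt
  · rw [hw0]; exact hfr
  · rw [hw0, hw1]
    intro i hi1 hi2 hi3
    exact hmd i _ hi1 hlt hi2 hi3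
  · rw [hw0, hw1]
    intro i hi1 hi2 hne
    exact hbk i _ hi1 hlt hi2 hne

/-- For every `n ≥ 1`, weight vector `ω` and admissible `t` in `B_n(ω)` (with `e0` its image under
`ρ`, inserting exponent `0` at position `p`), the exponent vector `e` of the image under
`φ_(p;κ)` is again in `B_(n+1)(ω)`, provided that (with `r` the length of `κ`) `u = 1` (counted
from `0`: exactly `κ 0` is a spike `2 ^ r - 1` that stays), there is an exceptional place `q`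
behind `x_p`, different from `κ 0`, with exponent congruent to `2 ^ (r - 2) - 1` modulo
`2 ^ (r - 1)` (modulo `2 ^ r` if it lies before `κ 0`), and the other exponents (without `x_p`) are
congruent to `-1` modulo `2 ^ r` or of the form `2 ^ a - 1` with `a ≤ r - 2` (`a ≤ r - 1` between
`x_p` and `κ 0`), where for the variables behind `x_p` that are behind `κ 0` or behind `q` the
congruence is only modulo `2 ^ (r - 1)` (and `a ≤ r - 2`). -/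
theorem result :
  ∀ (W : (d : ℕ) → (Fin d → ℕ) → ℕ → ℕ),
    (∀ (d : ℕ) (e : Fin d → ℕ) (i : ℕ), W d e i = ∑ j, e j / 2 ^ i % 2) →
  ∀ (L : (ℕ → ℕ) → (ℕ → ℕ) → Prop),
    (∀ a b : ℕ → ℕ, L a b ↔ ∃ i : ℕ, (∀ l < i, a l = b l) ∧ a i < b i) →
  ∀ (Adm : (d : ℕ) → (Fin d → ℕ) → Prop),
    (∀ (d : ℕ) (u : Fin d → ℕ), Adm d u ↔
      MvPolynomial.monomial (Finsupp.equivFunOnFinite.symm u) (1 : ZMod 2) ∉
        (Submodule.span (ZMod 2)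
          {g : MvPolynomial (Fin d) (ZMod 2) | ∃ (e : Fin d → ℕ) (i : ℕ), 0 < i ∧
            g = MvPolynomial.homogeneousComponent ((∑ j, e j) + i)
              (MvPolynomial.aeval
                (fun j : Fin d => (MvPolynomial.X j + MvPolynomial.X j ^ 2 : MvPolynomial (Fin d) (ZMod 2)))
                (MvPolynomial.monomial (Finsupp.equivFunOnFinite.symm e) (1 : ZMod 2)))}
        ⊔ Submodule.span (ZMod 2)
          {g : MvPolynomial (Fin d) (ZMod 2) | ∃ y : Fin d → ℕ,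
            g = MvPolynomial.monomial (Finsupp.equivFunOnFinite.symm y) (1 : ZMod 2) ∧
            ∑ j, y j = ∑ j, u j ∧
            (L (W d y) (W d u) ∨
              (W d y = W d u ∧ ∃ i : Fin d, (∀ j, j < i → y j = u j) ∧ y i < u i))})) →
  ∀ (B : (d : ℕ) → (ℕ →₀ ℕ) → (Fin d → ℕ) → Prop),
    (∀ (d : ℕ) (ω : ℕ →₀ ℕ) (e : Fin d → ℕ), B d ω e ↔
      (Adm d e ∧ ∑ j, e j = ω.sum (fun i a => 2 ^ i * a) ∧
        (W d e = ⇑ω ∨ L (W d e) ⇑ω))) →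
  ∀ (n : ℕ), 1 ≤ n → ∀ (ω : ℕ →₀ ℕ) (t : Fin n → ℕ), B n ω t →
  ∀ (p : Fin (n + 1)) (e0 : Fin (n + 1) → ℕ), e0 p = 0 → (∀ j, e0 (p.succAbove j) = t j) →
     ∀ (r : ℕ) (κ : Fin r → Fin (n + 1)) (u : Fin r) (e : Fin (n + 1) → ℕ),
       StrictMono κ → (∀ m, p < κ m) →
       (u : ℕ) = 1 → ∀ q : Fin (n + 1), p < q → (∀ m, m < u → q ≠ κ m) →
       e0 q % 2 ^ (r - 1) = 2 ^ (r - 2) - 1 →
       (∀ m, m < u → q < κ m → e0 q % 2 ^ r = 2 ^ (r - 2) - 1) →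
       (∀ i, i < p → (e0 i % 2 ^ r = 2 ^ r - 1 ∨ ∃ a : ℕ, a ≤ r - 2 ∧ e0 i = 2 ^ a - 1)) →
       (∀ i m, p < i → m < u → i < κ m → i < q →
         (e0 i % 2 ^ r = 2 ^ r - 1 ∨ ∃ a : ℕ, a ≤ r - 1 ∧ e0 i = 2 ^ a - 1)) →
       (∀ i m, p < i → m < u → (κ m < i ∨ q < i) → i ≠ q →
         (e0 i % 2 ^ (r - 1) = 2 ^ (r - 1) - 1 ∨ ∃ a : ℕ, a ≤ r - 2 ∧ e0 i = 2 ^ a - 1)) →
       (∀ m, m < u → e0 (κ m) = 2 ^ r - 1) →
       (∀ m, m ≤ u → e0 (κ u) / 2 ^ (r - 1 - (m : ℕ)) % 2 = 1) →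
       (∀ m, u < m → e0 (κ m) / 2 ^ (r - 1 - (m : ℕ)) % 2 = 1) →
       e p = 2 ^ r - 1 →
       e (κ u) + ∑ m ∈ Finset.range ((u : ℕ) + 1), 2 ^ (r - 1 - m) = e0 (κ u) →
       (∀ m, u < m → e (κ m) + 2 ^ (r - 1 - (m : ℕ)) = e0 (κ m)) →
       (∀ i, i ≠ p → (∀ m, u ≤ m → i ≠ κ m) → e i = e0 i) →
       B (n + 1) ω e := by
  intro W hW L hL Adm hAdm B hB n _ ω t ht p e0 h0 h1 r κ u e hκ hpκ hu1 q hpq hqne hqk hqg
    hfr hmd hbk hlow hbu hbm hep heu hem heq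
  have hWw : ∀ (d : ℕ) (e : Fin d → ℕ), W d e = wt e := fun d e => funext fun i => hW d e i
  have hLL : ∀ a b, L a b ↔ LexLT a b := fun a b => hL a b
  have hA : ∀ (d : ℕ) (u : Fin d → ℕ), Adm d u ↔ Pool.Agent.Helper60.Hit.Adm u := by
    intro d u
    rw [hAdm]
    unfold Pool.Agent.Helper60.Hit.Adm
    have hset : {g : MvPolynomial (Fin d) (ZMod 2) | ∃ y : Fin d → ℕ,
            g = MvPolynomial.monomial (Finsupp.equivFunOnFinite.symm y) (1 : ZMod 2) ∧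
            ∑ j, y j = ∑ j, u j ∧
            (L (W d y) (W d u) ∨
              (W d y = W d u ∧ ∃ i : Fin d, (∀ j, j < i → y j = u j) ∧ y i < u i))} =
        {g | ∃ y : Fin d → ℕ, g = mono y ∧ MonLT y u} := by
      ext g
      simp only [hWw, hLL]
      rfl
    rw [hset]
    rfl
  have hwt0 : wt t = wt e0 := by
    funext k
    unfold wt
    rw [Fin.sum_univ_succAbove (fun j => e0 j / 2 ^ k % 2) p, h0]
    simp [h1]
  have hsum0 : ∑ j, t j = ∑ j, e0 j := by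
    rw [Fin.sum_univ_succAbove (fun j => e0 j) p, h0]
    simp [h1]
  obtain ⟨g1, g2, g3⟩ := nl_main p e0 h0 r κ u e hκ hpκ hu1 q hpq hqne hqk hqg hfr hmd hbk
    hlow hbu hbm hep heu hem heq
  rw [hB] at ht ⊢
  obtain ⟨ht1, ht2, ht3⟩ := ht
  refine ⟨?_, ?_, ?_⟩
  · rw [hA] at ht1 ⊢
    exact g1 (adm_insert p h0 h1 ht1)
  · rw [g3, ← hsum0]; exact ht2
  · rw [hWw] at ht3 ⊢
    rw [g2, ← hwt0]; exact ht3

end Pool.Agent.Results.MP_27a5c7_al.NextLevel
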